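import Pool.Agent.Helper33.Half.Every

set_option autoImplicit false

/-!
# Products of `k` values of the Liouville function in progression: every scale, almost all differences

At EVERY scale `x` and for `D` from a large constant up to a small multiple of `x`: for almost all the
differences `d ≤ D`, and also for almost all the prime differences `p ≤ D`, the mean over `n ≤ x` of
`λ(n) λ(n+d) ⋯ λ(n+(k-1)d)` is smaller than `1/2 - c_k` in absolute value.

The proof combines averages of two-point correlations over the shift (the theorem of Matomäki,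
Radziwiłł and Tao, library), cubes of progressions, Szemerédi's theorem, the structure theorem for
correlations along dilates and the transference to primes (library).
-/

namespace Pool.Agent.Results.MP_a14ce1_nt.EveryScaleAlmostAllDifferences

open Finset
open Pool.Agent.Helper33.Half (CC PR lamI sum_cast every ww sum_ww_true sum_ww_false ww_nonneg)

/-- The Liouville function `λ(n) = (-1) ^ Ω(n)`. -/
def liouville (n : ℕ) : ℤ := (-1) ^ ArithmeticFunction.cardFactors n

/-- `S k d x = ∑_{n ≤ x} λ(n) λ(n + d) ⋯ λ(n + (k - 1) d)`; for `d = 1` this is `S_k(x)`. -/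
def S (k d x : ℕ) : ℤ := ∑ n ∈ Icc 1 x, ∏ j ∈ range k, liouville (n + j * d)

lemma S_CC (k d x : ℕ) : ((S k d x : ℤ) : ℝ) = CC lamI k x d := by
  unfold CC S
  rw [sum_cast]
  push_cast
  refine sum_congr rfl fun n _ => ?_
  unfold PR
  refine prod_congr rfl fun j _ => ?_
  unfold liouville lamI
  have h1 : ((n : ℤ) + (j : ℤ) * (d : ℤ)).natAbs = n + j * d := by
    have : (n : ℤ) + (j : ℤ) * (d : ℤ) = ((n + j * d : ℕ) : ℤ) := by push_cast; ring
    rw [this, Int.natAbs_natCast]
  rw [h1]
  push_cast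
  rfl

open Classical in
/-- **Every scale, almost all differences, almost all prime differences.** There are positive constants
`c k` such that for every length `k ≥ 2` and every `ε > 0` there is `K` such that for ALL `D ≥ K` and
`x ≥ K D`:
* the number of the differences `d ≤ D` with
  `|∑_{n ≤ x} λ(n) λ(n+d) ⋯ λ(n+(k-1)d)| > (1/2 - c k) x` is at most `ε D`;
* the sum of `log p` over the primes `p ≤ D` with this property (`d = p`) is at most `ε D`. -/
theorem result : ∃ c : ℕ → ℝ, (∀ k, 0 < c k) ∧ ∀ k : ℕ, 2 ≤ k → ∀ ε : ℝ, 0 < ε → ∃ K : ℕ,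
    ∀ D x : ℕ, K ≤ D → K * D ≤ x →
      (((Icc 1 D).filter (fun d => (1 / 2 - c k) * x < |(S k d x : ℝ)|)).card : ℝ) ≤ ε * D ∧
      ∑ p ∈ (Icc 1 D).filter (fun p => p.Prime ∧ (1 / 2 - c k) * x < |(S k p x : ℝ)|),
        Real.log p ≤ ε * D := by
  have hex : ∀ k : ℕ, ∃ κ : ℝ, 0 < κ ∧ (2 ≤ k → ∀ (b : Bool) (ε : ℝ), 0 < ε →
    ∃ K : ℕ, ∀ D x : ℕ, K ≤ D → K * D ≤ x → ∀ σ : ℝ, (σ = 1 ∨ σ = -1) →
      ∑ d ∈ Icc 1 D, ww b d * (if (1 / 2 - κ) * x < σ * CC lamI k x d then 1 else 0) ≤ ε * D) := by
    intro k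
    by_cases hk : 2 ≤ k
    · obtain ⟨κ, h1, h2, h3⟩ := every hk
      exact ⟨κ, h1, fun _ => h3⟩
    · exact ⟨1, one_pos, fun h => absurd h hk⟩
  choose c hc0 hc using hex
  refine ⟨c, hc0, fun k hk ε hε => ?_⟩
  have key : ∀ b : Bool, ∃ K : ℕ, ∀ D x : ℕ, K ≤ D → K * D ≤ x →
      ∑ d ∈ Icc 1 D, ww b d * (if (1 / 2 - c k) * x < |(S k d x : ℝ)| then 1 else 0) ≤ ε * D := by
    intro b
    obtain ⟨K, hK⟩ := hc k hk b (ε / 2) (by positivity)
    refine ⟨K, fun D x hD hDx => ?_⟩
    have h1 := hK D x hD hDx 1 (Or.inl rfl)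
    have h2 := hK D x hD hDx (-1) (Or.inr rfl)
    have h3 : ∀ d ∈ Icc 1 D, ww b d * (if (1 / 2 - c k) * x < |(S k d x : ℝ)| then 1 else 0) ≤
        ww b d * (if (1 / 2 - c k) * x < 1 * CC lamI k x d then 1 else 0) +
        ww b d * (if (1 / 2 - c k) * x < -1 * CC lamI k x d then 1 else 0) := by
      intro d _
      rw [← mul_add]
      refine mul_le_mul_of_nonneg_left ?_ (ww_nonneg b d)
      by_cases h : (1 / 2 - c k) * x < |(S k d x : ℝ)|
      · rw [if_pos h]
        rw [S_CC] at h
        rcases lt_abs.1 h with h' | h'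
        · rw [if_pos (by rw [one_mul]; exact h')]
          split_ifs <;> norm_num
        · rw [if_pos (show (1 / 2 - c k) * (x : ℝ) < -1 * CC lamI k x d by
            rw [neg_one_mul]; exact h')]
          split_ifs <;> norm_num
      · rw [if_neg h]
        split_ifs <;> norm_num
    refine (sum_le_sum h3).trans ?_
    rw [sum_add_distrib]
    linarith
  obtain ⟨K₁, hK₁⟩ := key false
  obtain ⟨K₂, hK₂⟩ := key true
  refine ⟨max K₁ K₂, fun D x hD hDx => ?_⟩
  have g1 := hK₁ D x ((le_max_left _ _).trans hD)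
    ((Nat.mul_le_mul_right _ (le_max_left _ _)).trans hDx)
  have g2 := hK₂ D x ((le_max_right _ _).trans hD)
    ((Nat.mul_le_mul_right _ (le_max_right _ _)).trans hDx)
  constructor
  · refine le_trans (le_of_eq ?_) g1
    rw [← sum_boole, sum_ww_false D (fun d => if (1 / 2 - c k) * x < |(S k d x : ℝ)| then 1 else 0)]
  · refine le_trans (le_of_eq ?_) g2
    rw [sum_ww_true D (fun d => if (1 / 2 - c k) * x < |(S k d x : ℝ)| then 1 else 0),
      ← filter_filter, sum_filter]
    refine sum_congr rfl fun p _ => ?_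
    split_ifs <;> simp

end Pool.Agent.Results.MP_a14ce1_nt.EveryScaleAlmostAllDifferences
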