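import Pool.Agent.Helper87.T.Log

/-!
# Products of `k` consecutive values of the Liouville function: the fixed lengths `k`

At almost all scales `N`: for almost all lengths `k ≤ K`, where `K` is any number between a constant and `N`, the sums
`S_k` and `S_{k+2}` together are at most `3 / 4` of the trivial bound for one of them. For the fixed lengths this gives
the mean `3 / 16` (the odd lengths have sums `o(N)`), at least three quarters of the fixed lengths have the bound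
`3 / 8`, and the sums with arbitrary weights are at most `√(3 / 16)` of the trivial bound in mean square. For every single
length the sum of `|S_k|` and `|S_{k+2}|` is bounded by means of one correlation of order four.

From the library: averaged Chowla theorem with arbitrary weights (`TH893.CL`), exponential sums over `λ(n) λ(n + d)` at
almost all scales (`X23.CS`), correlations of odd order at all but few scales (`N675.FS`).
From Mathlib: `ArithmeticFunction.cardFactors n`: the number of the prime factors of `n` with multiplicity;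
`Finset.Ioc Y X`: the integers `n` with `Y < n ≤ X`; `Finset.Icc 1 N`: the integers from `1` to `N`.
-/

set_option autoImplicit false

open Finset Filter

namespace Pool.Agent.Results.MP_a14ce1_nt.FixedLengthsThreeSixteenths

/-- The product `λ(a n + b) λ(a (n + 1) + b) ... λ(a (n + k - 1) + b)` of the values of the Liouville function at
`k` consecutive terms of a progression. For `a = 1` and `b = 0` it is `λ(n) λ(n + 1) ... λ(n + k - 1)`. -/
noncomputable def prodL (a b k n : ℕ) : ℝ := ∏ j ∈ range k, (-1 : ℝ) ^ ArithmeticFunction.cardFactors (a * (n + j) + b)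

/-- The sum of the products over the interval `Y < n ≤ X`. For `a = 1`, `b = 0`, `Y = 0` it is `S_k(X)`. -/
noncomputable def sumL (a b k Y X : ℕ) : ℝ := ∑ n ∈ Ioc Y X, prodL a b k n

/-- The correlation of order four with the shifts `0, k, k + 1, k + 2` along the progression, over `Y < n ≤ X`. For
`a = 1` and `b = 0` it is the sum of `λ(n) λ(n + k) λ(n + k + 1) λ(n + k + 2)`. -/
noncomputable def fourL (a b k Y X : ℕ) : ℝ := ∑ n ∈ Ioc Y X, prodL a b 1 n * prodL a b 3 (n + k)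

/-- The logarithmic sum of the products, over `1 ≤ n ≤ X`. -/
noncomputable def logL (a b k X : ℕ) : ℝ := ∑ n ∈ Icc 1 X, prodL a b k n / n

open Classical in
/-- The number of the elements of the finite set `I` with the property `E`. -/
noncomputable def num (I : Finset ℕ) (E : ℕ → Prop) : ℝ := ((I.filter E).card : ℝ)

open Classical in
/-- The set `E` of positive integers has logarithmic density zero. -/
def LogDensityZero (E : Set ℕ) : Prop := Tendsto
  (fun X : ℕ => (∑ n ∈ Icc 1 X, if n ∈ E then (1 : ℝ) / n else 0) / Real.log X) atTop (nhds 0)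

/-- There is one set `E` of logarithmic density zero such that, with `S_k(I)` the sum over `n ∈ I` of the products of
`k` consecutive values of `λ` along `a n + b`, and with `I = (Y, X]` for arbitrary `Y ≤ X ≤ N`:

* almost all lengths up to any `K`: for all `a ≥ 1`, `B`, `ε > 0`, all scales `N ≥ N₀(a, B, ε)` outside `E`, all
  `K₀(a, B, ε) ≤ K ≤ N` and all `b ≤ B N`: for all but at most `ε K` of the lengths `k ≤ K`,
  `|S_k(I)| + |S_{k+2}(I)| ≤ (3 / 4) |I| + ε N` on **all** the intervals `I`;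
* every length: for all `a`, `k ≥ 1`, `B`, `ε > 0`, all `N ≥ N₀` outside `E` and all `b ≤ B N`, on all the intervals `I`:
  `|S_k(I)| + |S_{k+2}(I)| ≤ (3 / 4) |I| + |C_k(I)| / 4 + ε N`, where `C_k` is the correlation of order four with the
  shifts `0, k, k + 1, k + 2`;
* fixed lengths: for all `a ≥ 1`, `B`, `ε > 0` and all fixed `K ≥ K₀(a, B, ε)`, all `N ≥ N₀` outside `E`, all `b ≤ B N`
  and all the intervals `I`: in the mean over the lengths `k ≤ K`, `|S_k(I)|` is at most `(3 / 16) |I| + ε N`; at most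
  `(1 / 4 + ε) K` of the lengths `k ≤ K` have `|S_k(I)| > (3 / 8) |I| + ε N`; and for every weight `ξ : ℕ → ℂ` bounded
  by `1`, in the mean over the lengths `k ≤ K`, the square of the absolute value of the sum over `n ∈ I` of
  `ξ(n) λ(a n + b) ... λ(a (n + k - 1) + b)` is at most `|I| ((3 / 16) |I| + ε N)`.

Moreover, for the logarithmic sums `L_k(X)` (sum of the products over `n ≤ X` divided by `n`) at **every** large scale
`X`: for all but at most `ε K` of the lengths `k ≤ K`, `|L_k(X)| + |L_{k+2}(X)| ≤ (3 / 4 + ε) log X`; in the mean over the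
lengths `k ≤ K`, `|L_k(X)|` is at most `(3 / 16 + ε) log X`; and at most `(1 / 4 + ε) K` of the lengths `k ≤ K` have
`|L_k(X)| > (3 / 8 + ε) log X`. -/
theorem result : (∃ E : Set ℕ, LogDensityZero E ∧
    (∀ a B : ℕ, 1 ≤ a → ∀ ε : ℝ, 0 < ε → ∃ K₀ N₀ : ℕ, ∀ N K : ℕ, N₀ ≤ N → N ∉ E → K₀ ≤ K → K ≤ N →
      ∀ b : ℕ, b ≤ B * N →
      num (Icc 1 K) (fun k => ¬ ∀ Y X : ℕ, Y ≤ X → X ≤ N →
        |sumL a b k Y X| + |sumL a b (k + 2) Y X| ≤ 3 / 4 * ((X : ℝ) - Y) + ε * N) ≤ ε * K) ∧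
    (∀ a B k : ℕ, 1 ≤ a → 1 ≤ k → ∀ ε : ℝ, 0 < ε → ∃ N₀ : ℕ, ∀ N : ℕ, N₀ ≤ N → N ∉ E → ∀ b : ℕ, b ≤ B * N →
      ∀ Y X : ℕ, Y ≤ X → X ≤ N → |sumL a b k Y X| + |sumL a b (k + 2) Y X| ≤
        3 / 4 * ((X : ℝ) - Y) + |fourL a b k Y X| / 4 + ε * N) ∧
    (∀ a B : ℕ, 1 ≤ a → ∀ ε : ℝ, 0 < ε → ∃ K₀ : ℕ, ∀ K : ℕ, K₀ ≤ K → ∃ N₀ : ℕ, ∀ N : ℕ, N₀ ≤ N → N ∉ E →
      ∀ b : ℕ, b ≤ B * N → ∀ Y X : ℕ, Y ≤ X → X ≤ N →
      ∑ k ∈ Icc 1 K, |sumL a b k Y X| ≤ K * (3 / 16 * ((X : ℝ) - Y) + ε * N) ∧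
      num (Icc 1 K) (fun k => 3 / 8 * ((X : ℝ) - Y) + ε * N < |sumL a b k Y X|) ≤ (1 / 4 + ε) * K ∧
      ∀ ξ : ℕ → ℂ, (∀ n, ‖ξ n‖ ≤ 1) →
        ∑ k ∈ Icc 1 K, ‖∑ n ∈ Ioc Y X, ξ n * (prodL a b k n : ℂ)‖ ^ 2 ≤
          ((X : ℝ) - Y) * (K * (3 / 16 * ((X : ℝ) - Y) + ε * N)))) ∧
    ∀ a b : ℕ, 1 ≤ a → ∀ ε : ℝ, 0 < ε → ∃ K₀ : ℕ, ∀ K : ℕ, K₀ ≤ K → ∃ X₀ : ℕ, ∀ X : ℕ, X₀ ≤ X →
      num (Icc 1 K) (fun k => ¬ |logL a b k X| + |logL a b (k + 2) X| ≤ (3 / 4 + ε) * Real.log X) ≤ ε * K ∧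
      ∑ k ∈ Icc 1 K, |logL a b k X| ≤ K * ((3 / 16 + ε) * Real.log X) ∧
      num (Icc 1 K) (fun k => (3 / 8 + ε) * Real.log X < |logL a b k X|) ≤ (1 / 4 + ε) * K := by
  obtain ⟨E, hE, E', h2, h3, hEE⟩ := Pool.Agent.Helper87.T.exc
  refine ⟨⟨E, hE, ?_, ?_, ?_⟩, ?_⟩
  · intro a B ha ε hε
    obtain ⟨K₀, N₀, h⟩ := Pool.Agent.Helper87.T.partA h2 a B ha ε hε
    obtain ⟨N₁, hN₁⟩ := hEE a B ha
    exact ⟨K₀, N₀ + N₁, fun N K hN hNE hK hKN b hb => h N K (by omega) (hN₁ N (by omega) hNE) hK hKN b hb⟩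
  · intro a B k ha hk ε hε
    obtain ⟨N₀, h⟩ := Pool.Agent.Helper87.T.partC h2 a B k ha hk ε hε
    obtain ⟨N₁, hN₁⟩ := hEE a B ha
    refine ⟨N₀ + N₁, fun N hN hNE b hb Y X hYX hX => ?_⟩
    refine (h N (by omega) (hN₁ N (by omega) hNE) b hb Y X hYX hX).trans (le_of_eq ?_)
    have e : fourL a b k Y X = ∑ n ∈ Ioc Y X, Pool.Agent.TH893.CL.lr a b n *
        (Pool.Agent.TH893.CL.lr a b (n + k) * Pool.Agent.TH893.CL.lr a b (n + k + 1) *
          Pool.Agent.TH893.CL.lr a b (n + k + 2)) := by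
      unfold fourL prodL Pool.Agent.TH893.CL.lr
      refine sum_congr rfl fun n _ => ?_
      rw [prod_range_one, prod_range_succ, prod_range_succ, prod_range_one, add_zero, add_zero]
    rw [e]
  · intro a B ha ε hε
    obtain ⟨K₀, h⟩ := Pool.Agent.Helper87.T.partB h2 h3 a B ha ε hε
    obtain ⟨N₁, hN₁⟩ := hEE a B ha
    refine ⟨K₀, fun K hK => ?_⟩
    obtain ⟨N₀, h⟩ := h K hK
    refine ⟨N₀ + N₁, fun N hN hNE b hb Y X hYX hX => ?_⟩
    obtain ⟨r1, r2, r3⟩ := h N (by omega) (hN₁ N (by omega) hNE) b hb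
    exact ⟨r1 Y X hYX hX, r2 Y X hYX hX, fun ξ hξ => r3 ξ hξ Y X hYX hX⟩
  · intro a b ha ε hε
    exact Pool.Agent.Helper87.T.logs hE h2 h3 hEE a b ha ε hε

end Pool.Agent.Results.MP_a14ce1_nt.FixedLengthsThreeSixteenths
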