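import Pool.Agent.Helper87.Q.Fin

/-!
# Products of `k` consecutive values of the Liouville function: `1 / 4` for almost all lengths, `9 / 64` in the mean

At almost all scales `N`: for almost all lengths `k ≤ N` the sums `S_k` are at most `1 / 4` of the trivial bound, the
sums of four neighbouring lengths at most `9 / 16` of it together, and in the mean over the lengths they are at most
`9 / 64` of it; and the exponential sums over `λ(1) λ(2) ... λ(n) = λ(n!)` are at most `3 / 8` of the trivial bound.

From the library: exponential sums over `λ(n)`, `λ(n) λ(n + d)` at almost all scales (`X23.CS`), correlations of odd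
order at all but few scales (`N675.FS`), from progressions to all linear phases (`V1213.CH`).
From Mathlib: `ArithmeticFunction.cardFactors n`: the number of the prime factors of `n` with multiplicity;
`Finset.Ioc Y X`: the integers `n` with `Y < n ≤ X`; `Finset.Icc 1 N`: the integers from `1` to `N`.
-/

set_option autoImplicit false

open Finset Filter

namespace Pool.Agent.Results.MP_a14ce1_nt.QuarterAlmostAllLengths

/-- The product `λ(a n + b) λ(a (n + 1) + b) ... λ(a (n + k - 1) + b)` of the values of the Liouville function at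
`k` consecutive terms of a progression. For `a = 1` and `b = 0` it is `λ(n) λ(n + 1) ... λ(n + k - 1)`. -/
noncomputable def prodL (a b k n : ℕ) : ℝ := ∏ j ∈ range k, (-1 : ℝ) ^ ArithmeticFunction.cardFactors (a * (n + j) + b)

/-- The sum of the products over the interval `Y < n ≤ X`. For `a = 1`, `b = 0`, `Y = 0` it is `S_k(X)`. -/
noncomputable def sumL (a b k Y X : ℕ) : ℝ := ∑ n ∈ Ioc Y X, prodL a b k n

/-- The product `λ(b) λ(a + b) ... λ(a (n - 1) + b)` of the first `n` values along the progression. For `a = b = 1`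
it is `λ(1) λ(2) ... λ(n) = λ(n!)`. -/
noncomputable def initL (a b n : ℕ) : ℝ := ∏ j ∈ range n, (-1 : ℝ) ^ ArithmeticFunction.cardFactors (a * j + b)

open Classical in
/-- The number of the elements of the finite set `I` with the property `E`. -/
noncomputable def num (I : Finset ℕ) (E : ℕ → Prop) : ℝ := ((I.filter E).card : ℝ)

open Classical in
/-- The set `E` of positive integers has logarithmic density zero. -/
def LogDensityZero (E : Set ℕ) : Prop := Tendsto
  (fun X : ℕ => (∑ n ∈ Icc 1 X, if n ∈ E then (1 : ℝ) / n else 0) / Real.log X) atTop (nhds 0)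

/-- There is one set `E` of logarithmic density zero such that for every `a ≥ 1`, `B`, `ε > 0` and all the scales
`N ≥ N₀(a, B, ε)` outside `E`, for every progression `a n + b` with `b ≤ B N`, with `S_k(I)` the sum over `n ∈ I` of
the products of `k` consecutive values of `λ` along the progression:

* for all but at most `ε N` of the lengths `k ≤ N`: `|S_k(I)| ≤ |I| / 4 + ε N` on **all** the intervals `I = (Y, X]`
  with `X ≤ N`;
* for all but at most `ε N` of the lengths `k ≤ N`:
  `|S_k(I)| + |S_{k+1}(I)| + |S_{k+2}(I)| + |S_{k+3}(I)| ≤ (9 / 16) |I| + ε N` on all the intervals `I`;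
* in the mean over the lengths `k ≤ N`, `|S_k(I)|` is at most `(9 / 64) |I| + ε N`;
* the sum over `n ∈ I` of `e(α n)` times the product of the first `n` values along the progression is at most
  `(3 / 8) |I| + ε N`, for every real `α`. For `a = b = 1` these are the sums of `λ(n!) e(α n)`. -/
theorem result : (∃ E : Set ℕ, LogDensityZero E ∧ ∀ a B : ℕ, 1 ≤ a → ∀ ε : ℝ, 0 < ε →
    ∃ N₀ : ℕ, ∀ N : ℕ, N₀ ≤ N → N ∉ E → ∀ b : ℕ, b ≤ B * N →
      num (Icc 1 N) (fun k => ¬ ∀ Y X : ℕ, Y ≤ X → X ≤ N →
        |sumL a b k Y X| ≤ ((X : ℝ) - Y) / 4 + ε * N) ≤ ε * N ∧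
      num (Icc 1 N) (fun k => ¬ ∀ Y X : ℕ, Y ≤ X → X ≤ N →
        |sumL a b k Y X| + |sumL a b (k + 1) Y X| + |sumL a b (k + 2) Y X| + |sumL a b (k + 3) Y X| ≤
          9 / 16 * ((X : ℝ) - Y) + ε * N) ≤ ε * N ∧
      (∀ Y X : ℕ, Y ≤ X → X ≤ N → ∑ k ∈ Icc 1 N, |sumL a b k Y X| ≤ N * (9 / 64 * ((X : ℝ) - Y) + ε * N)) ∧
      (∀ (α : ℝ) (Y X : ℕ), Y ≤ X → X ≤ N →
        ‖∑ n ∈ Ioc Y X, (initL a b n : ℂ) * Complex.exp (2 * Real.pi * (α * n) * Complex.I)‖ ≤
          3 / 8 * ((X : ℝ) - Y) + ε * N)) ∧
    ∀ n : ℕ, initL 1 1 n = (-1 : ℝ) ^ ArithmeticFunction.cardFactors n.factorial := by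
  have hinit : ∀ a b n : ℕ, initL a b n = Pool.Agent.X23.CS.prodL a b n 0 := by
    intro a b n
    unfold initL Pool.Agent.X23.CS.prodL Pool.Agent.X23.CS.lam
    refine prod_congr rfl fun j _ => ?_
    rw [zero_add]
  constructor
  · obtain ⟨E, hE, h⟩ := Pool.Agent.Helper87.Q.main
    refine ⟨E, hE, fun a B ha ε hε => ?_⟩
    obtain ⟨N₀, h⟩ := h a B ha ε hε
    refine ⟨N₀, fun N hN hNE b hb => ?_⟩
    obtain ⟨h1, h2, h3, h4⟩ := h N hN hNE b hb
    refine ⟨h1, h2, h3, fun α Y X hYX hX => ?_⟩
    refine le_trans (le_of_eq ?_) (h4 α Y X hYX hX)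
    congr 1
    refine sum_congr rfl fun n _ => ?_
    rw [hinit]
    unfold Pool.Agent.X23.CS.e
    push_cast
    rfl
  · intro n
    rw [hinit]
    exact Pool.Agent.Helper87.Q.prodL_factorial n

end Pool.Agent.Results.MP_a14ce1_nt.QuarterAlmostAllLengths
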