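import Pool.Agent.Helper33.Half.Main
import Pool.Graph.R_pool_sql_team_seeded_2aa45f1a.Results.MP_a14ce1_nt.HalfBoundAllLengths

set_option autoImplicit false

/-!
# Products of `k` values of the Liouville function: strictly better than one half, for every length

Two neighbouring products `P(n) = λ(n) λ(n+d) ⋯ λ(n+(k-1)d)` and `P(n+d)` have the product
`λ(n) λ(n+kd)`, and the two-point correlations vanish at almost all scales; so `P` takes neither value
for more than three quarters of the `n`. Equality would mean that `P(n) = P(n+d) = -σ` (almost) never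
happens. That is impossible along a cluster of differences `d, d + q, …, d + H q`: among the `2^(k-1)`
progressions of a cube of progressions the interior values cancel, and Szemerédi's theorem provides
many cubes whose end values agree and whose starting values have the product `-1`. The structure
theorem for correlations along dilates, the transference to primes and the entropy decrement (library)
reduce the fixed difference `r` to such clusters.
-/

namespace Pool.Agent.Results.MP_a14ce1_nt.StrictlyBelowHalfAllLengths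

open Finset Filter Topology
open Pool.Agent.Y958.U (LZ LZ_sub diag')
open Pool.Agent.Helper33.Half (CC PR lamI lamI_sg PR_val sum_cast dev)

/-- The Liouville function `λ(n) = (-1) ^ Ω(n)`. -/
def liouville (n : ℕ) : ℤ := (-1) ^ ArithmeticFunction.cardFactors n

/-- `P k r n = λ(n) λ(n + r) ⋯ λ(n + (k - 1) r)`; for `r = 1` this is the product of `k` consecutive
values of the Liouville function. -/
def P (k r n : ℕ) : ℤ := ∏ j ∈ range k, liouville (n + j * r)

lemma P_PR (k r n : ℕ) : ((P k r n : ℤ) : ℝ) = PR lamI k r n := by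
  unfold P PR
  push_cast
  refine prod_congr rfl fun j _ => ?_
  unfold liouville lamI
  have h1 : ((n : ℤ) + (j : ℤ) * (r : ℤ)).natAbs = n + j * r := by
    have : (n : ℤ) + (j : ℤ) * (r : ℤ) = ((n + j * r : ℕ) : ℤ) := by push_cast; ring
    rw [this, Int.natAbs_natCast]
  rw [h1]
  push_cast
  rfl

lemma P_abs (k r n : ℕ) : |((P k r n : ℤ) : ℝ)| ≤ 1 := by
  rw [P_PR]
  rcases PR_val lamI_sg k r n with h | h <;> rw [h] <;> norm_num

lemma sum_CC (k r N : ℕ) : ∑ n ∈ Icc 1 N, ((P k r n : ℤ) : ℝ) = CC lamI k N r := by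
  unfold CC
  rw [sum_cast]
  exact sum_congr rfl fun n _ => P_PR k r n

open Classical in
/-- **Products of `k` values of the Liouville function: strictly below one half, for every length.**
There are positive constants `c k`, one for every length `k`, and one set `𝓔` of natural numbers of
logarithmic density zero such that for every length `k ≥ 2` and every difference `r ≥ 1`, with
`P(n) = λ(n) λ(n+r) ⋯ λ(n+(k-1)r)`:
* `|∑_{n ≤ N} P(n)| ≤ (1/2 - c k) N` for all large `N` outside `𝓔`;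
* `|∑_{n ≤ X} P(n) / n| ≤ (1/2 - c k) log X` for all large `X`.
For `r = 1` the first sum is the sum `S_k(N)` of the problem. The constant does not depend on `r`. -/
theorem result : ∃ c : ℕ → ℝ, (∀ k, 0 < c k) ∧ ∃ 𝓔 : Set ℕ,
    Tendsto (fun X : ℕ => (∑ N ∈ Icc 1 X, if N ∈ 𝓔 then (1 : ℝ) / N else 0) / Real.log X)
      atTop (𝓝 0) ∧
    ∀ k r : ℕ, 2 ≤ k → 1 ≤ r →
      (∃ N₀ : ℕ, ∀ N : ℕ, N₀ ≤ N → N ∉ 𝓔 →
        |∑ n ∈ Icc 1 N, (P k r n : ℝ)| ≤ (1 / 2 - c k) * N) ∧
      ∃ X₀ : ℕ, ∀ X : ℕ, X₀ ≤ X →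
        |∑ n ∈ Icc 1 X, (P k r n : ℝ) / n| ≤ (1 / 2 - c k) * Real.log X := by
  have hex : ∀ k : ℕ, ∃ κ : ℝ, 0 < κ ∧ κ < 1 / 2 ∧ (2 ≤ k → ∀ r : ℕ, 1 ≤ r →
      ∀ σ : ℝ, (σ = 1 ∨ σ = -1) → LZ {N : ℕ | (1 / 2 - κ) * N < σ * CC lamI k N r}) := by
    intro k
    by_cases hk : 2 ≤ k
    · obtain ⟨κ, h1, h2, h3⟩ := dev hk
      exact ⟨κ, h1, h2, fun _ => h3⟩
    · exact ⟨1 / 4, by norm_num, by norm_num, fun h => absurd h hk⟩
  choose κ hκ0 hκ1 hκ using hex
  obtain ⟨F, hF, hdiag⟩ := diag' (fun i : ℕ × ℕ × Bool =>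
    {N : ℕ | (2 ≤ i.1 ∧ 1 ≤ i.2.1) ∧
      (1 / 2 - κ i.1) * N < (if i.2.2 then (1 : ℝ) else -1) * CC lamI i.1 N i.2.1}) (by
    rintro ⟨k, r, b⟩
    by_cases hi : 2 ≤ k ∧ 1 ≤ r
    · refine LZ_sub ?_ (hκ k hi.1 r hi.2 (if b then (1 : ℝ) else -1) (by cases b <;> simp))
      rintro N ⟨-, hN⟩
      exact hN
    · refine LZ_sub ?_ Pool.Agent.Y958.U.LZ_empty
      rintro N ⟨h, -⟩
      exact absurd h hi)
  refine ⟨fun k => κ k / 2, fun k => by have := hκ0 k; positivity, F, hF, ?_⟩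
  intro k r hk hr
  have key : ∃ N₀ : ℕ, ∀ N : ℕ, N₀ ≤ N → N ∉ F →
      |∑ n ∈ Icc 1 N, (P k r n : ℝ)| ≤ (1 / 2 - κ k) * N := by
    obtain ⟨N₁, h1⟩ := hdiag (k, r, true)
    obtain ⟨N₂, h2⟩ := hdiag (k, r, false)
    refine ⟨max N₁ N₂, fun N hN hNF => ?_⟩
    rw [sum_CC]
    have h3 : CC lamI k N r ≤ (1 / 2 - κ k) * N := by
      by_contra hcon
      exact hNF (h1 N ⟨⟨hk, hr⟩, by simpa using not_le.1 hcon⟩ ((le_max_left _ _).trans hN))
    have h4 : -CC lamI k N r ≤ (1 / 2 - κ k) * N := by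
      by_contra hcon
      exact hNF (h2 N ⟨⟨hk, hr⟩, by simpa using not_le.1 hcon⟩ ((le_max_right _ _).trans hN))
    rw [abs_le]
    constructor <;> linarith
  have hκk := hκ0 k
  obtain ⟨N₀, hN₀⟩ := key
  constructor
  · refine ⟨N₀, fun N hN hNF => (hN₀ N hN hNF).trans ?_⟩
    exact mul_le_mul_of_nonneg_right (by linarith) (Nat.cast_nonneg _)
  · obtain ⟨X₀, hX₀⟩ := HalfBoundAllLengths.log_avg (fun n => (P k r n : ℝ)) (P_abs k r)
      (1 / 2 - κ k) (by have := hκ1 k; linarith) F hF N₀ hN₀ (κ k / 2) (by positivity)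
    refine ⟨X₀, fun X hX => (hX₀ X hX).trans (le_of_eq ?_)⟩
    ring

end Pool.Agent.Results.MP_a14ce1_nt.StrictlyBelowHalfAllLengths
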